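import Pool.Agent.Q267.Seven.Cubes

/-!
# MP_7db704_nt

`∑_{k<p} a(4k) C(2k,k)^3 / (-4096)^k ≡ 0 (mod p^2)` for every odd prime `p`, where
`a(0) = 0`, `a(1) = 1`, `a(n+2) = 5 a(n+1) - 8 a(n)`.
-/

namespace Pool.Agent.Results.MP_7db704_nt.CubeSum

open Finset

/-- The sequence `a(0) = 0`, `a(1) = 1`, `a(n+2) = 5 a(n+1) - 8 a(n)`. -/
def a : ℕ → ℤ
  | 0 => 0
  | 1 => 1
  | n + 2 => 5 * a (n + 1) - 8 * a n

/-- `S(p) = ∑_{k=0}^{p-1} a(4k) C(2k,k)^3 / (-4096)^k`, a rational number. -/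
def S (p : ℕ) : ℚ :=
  ∑ k ∈ range p, (a (4 * k) : ℚ) * ((2 * k).choose k : ℚ) ^ 3 / (-4096) ^ k

theorem a_eq (n : ℕ) : a n = Pool.Agent.Q267.Seven.aL n := by
  induction n using Nat.twoStepInduction with
  | zero => rfl
  | one => rfl
  | more k h1 h2 => rw [a, Pool.Agent.Q267.Seven.aL, h1, h2]

/-- the integral numerator. -/
def N (p : ℕ) : ℤ := ∑ k ∈ range p, a (4 * k) * (k.centralBinom : ℤ) ^ 3 * (-4096) ^ (p - 1 - k)

theorem N_eq (p : ℕ) : (N p : ℚ) = (-4096) ^ (p - 1) * S p := by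
  unfold N S
  rw [Int.cast_sum, mul_sum]
  refine sum_congr rfl fun k hk => ?_
  have hk' : k < p := by simpa using hk
  have e : (-4096 : ℚ) ^ (p - 1) = (-4096) ^ (p - 1 - k) * (-4096) ^ k := by
    rw [← pow_add]; congr 1; omega
  have h : (-4096 : ℚ) ^ k ≠ 0 := pow_ne_zero _ (by norm_num)
  rw [e, Nat.centralBinom]
  push_cast
  field_simp

theorem N_dvd (p : ℕ) (hp : p.Prime) (h3 : 3 ≤ p) : (p : ℤ) ^ 2 ∣ N p := by
  have hpf : Fact p.Prime := ⟨hp⟩
  by_cases h7 : p = 7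
  · subst h7
    decide +kernel
  obtain ⟨m, hm⟩ : ∃ m, p = 2 * m + 1 := hp.odd_of_ne_two (by omega)
  have hSS := Pool.Agent.Q267.Seven.SS_dvd p m hm h3 h7
  unfold N
  have hm1 : m + 1 ≤ p := by omega
  rw [← sum_range_add_sum_Ico _ hm1]
  refine dvd_add ?_ ?_
  · have e : ∑ k ∈ range (m + 1), a (4 * k) * (k.centralBinom : ℤ) ^ 3 * (-4096) ^ (p - 1 - k) =
        (-4096) ^ m * (Pool.Agent.Q267.Seven.SS m - ∑ k ∈ range (m + 1), a (4 * k)
          * (k.centralBinom : ℤ) * (-4096) ^ (m - k) *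
          (16 ^ k * Pool.Agent.Q267.Seven.dl m k - (k.centralBinom : ℤ) ^ 2)) := by
      unfold Pool.Agent.Q267.Seven.SS
      rw [← sum_sub_distrib, mul_sum]
      refine sum_congr rfl fun k hk => ?_
      have hk' : k ≤ m := by simpa [Nat.lt_succ_iff] using hk
      have e2 : (-4096 : ℤ) ^ (p - 1 - k) = (-4096) ^ m * (-4096) ^ (m - k) := by
        rw [← pow_add]; congr 1; omega
      rw [e2, a_eq]
      ring
    rw [e]
    apply Dvd.dvd.mul_left
    refine dvd_sub hSS (dvd_sum fun k hk => ?_)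
    have hk' : k ≤ m := by simpa [Nat.lt_succ_iff] using hk
    exact Dvd.dvd.mul_left (Pool.Agent.Q267.Seven.dl_sq p m hp hm k hk') _
  · refine dvd_sum fun k hk => ?_
    rw [mem_Ico] at hk
    apply Dvd.dvd.mul_right
    apply Dvd.dvd.mul_left
    have h1 : p ∣ k.centralBinom := by
      have h2 : p ∣ (2 * k).factorial := (hp.dvd_factorial).2 (by omega)
      have h3 : ¬ p ∣ k.factorial := fun h => by
        have := (hp.dvd_factorial).1 h; omega
      have h5 : k.centralBinom * k.factorial * k.factorial = (2 * k).factorial := by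
        rw [Nat.centralBinom_eq_two_mul_choose]
        have := Nat.choose_mul_factorial_mul_factorial (show k ≤ 2 * k by omega)
        rw [show 2 * k - k = k by omega] at this
        exact this
      rw [← h5] at h2
      rcases (hp.dvd_mul).1 h2 with h | h
      · rcases (hp.dvd_mul).1 h with h | h
        · exact h
        · exact absurd h h3
      · exact absurd h h3
    have h6 : (p : ℤ) ∣ (k.centralBinom : ℤ) := Int.natCast_dvd_natCast.2 h1
    exact (pow_dvd_pow_of_dvd h6 2).trans (pow_dvd_pow _ (by norm_num))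

/-- **MP_7db704_nt, Q1.** For every odd prime `p`, `S(p) ≡ 0 (mod p^2)`: the rational number
`S(p)` has numerator (in lowest terms) divisible by `p^2`. -/
theorem result (p : ℕ) (hp : p.Prime) (hodd : Odd p) : (p : ℤ) ^ 2 ∣ (S p).num := by
  have h3 : 3 ≤ p := by
    have := hp.two_le
    rcases hodd with ⟨k, rfl⟩
    omega
  have hN := N_dvd p hp h3
  have e : N p * ((S p).den : ℤ) = (-4096) ^ (p - 1) * (S p).num := by
    have : (N p : ℚ) * ((S p).den : ℚ) = (-4096) ^ (p - 1) * ((S p).num : ℚ) := by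
      rw [N_eq, mul_assoc, Rat.mul_den_eq_num]
    exact_mod_cast this
  have hd : (p : ℤ) ^ 2 ∣ (-4096) ^ (p - 1) * (S p).num := by
    rw [← e]; exact Dvd.dvd.mul_right hN _
  have hcop : IsCoprime ((p : ℤ) ^ 2) ((-4096) ^ (p - 1)) := by
    apply IsCoprime.pow
    have h2 : IsCoprime (p : ℤ) ((2 : ℕ) : ℤ) := by
      rw [Nat.isCoprime_iff_coprime, Nat.Prime.coprime_iff_not_dvd hp]
      exact Nat.not_dvd_of_pos_of_lt (by norm_num) (by omega)
    have h12 := (h2.pow_right (n := 12)).neg_right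
    norm_num at h12
    exact h12
  exact hcop.dvd_of_dvd_mul_left hd

end Pool.Agent.Results.MP_7db704_nt.CubeSum
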